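import Pool.Agent.Lib.MP_9e71a3_gt.Band
import Pool.Agent.Lib.MP_9e71a3_gt.Abstract

/-!
If the cone over a continuum embeds in Euclidean 3-space, the continuum embeds in the 2-sphere.
-/

namespace Pool.Agent.Results.MP_9e71a3_gt.QuotientCone

open Topology

universe u

/-- The relation on `X × [0,1]` that identifies the points of the top level. -/
def coneSetoid (X : Type u) : Setoid (X × unitInterval) where
  r p q := p = q ∨ (p.2 = 1 ∧ q.2 = 1)
  iseqv := ⟨fun _ => .inl rfl, fun h => h.imp Eq.symm And.symm, by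
    rintro p q r (rfl | h) (rfl | h')
    exacts [.inl rfl, .inr h', .inr h, .inr ⟨h.1, h'.2⟩]⟩

/-- The cone over `X`, with the quotient topology. -/
abbrev TopCone (X : Type u) : Type u := Quotient (coneSetoid X)

open Pool.Agent.Lib.MP_9e71a3_gt in
theorem result (X : Type u) [MetricSpace X] [CompactSpace X] [ConnectedSpace X]
    (f : TopCone X → EuclideanSpace ℝ (Fin 3)) (hf : IsEmbedding f) :
    ∃ e : X → Metric.sphere (0 : EuclideanSpace ℝ (Fin 3)) 1, IsEmbedding e := by
  have h0 : IsEmbedding fun x : X => f ⟦(x, 0)⟧ := by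
    refine ((hf.continuous.comp (continuous_quotient_mk'.comp
      (Continuous.prodMk_left 0))).isClosedEmbedding fun x y h => ?_).isEmbedding
    rcases Quotient.exact (hf.injective h) with h1 | h1
    · exact congrArg Prod.fst h1
    · exact absurd h1.1 zero_ne_one
  let h := h0.toHomeomorph
  have := h.compactSpace
  have := h.connectedSpace_iff.1 inferInstance
  suffices ∃ e : Set.range (fun x : X => f ⟦(x, 0)⟧) →
      Metric.sphere (0 : EuclideanSpace ℝ (Fin 3)) 1, IsEmbedding e from
    this.elim fun e he => ⟨_, he.comp h.isEmbedding⟩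
  rcases subsingleton_or_nontrivial (Set.range fun x : X => f ⟦(x, 0)⟧) with hX | hX
  · obtain ⟨p, hp⟩ : (Metric.sphere (0 : EuclideanSpace ℝ (Fin 3)) 1).Nonempty :=
      NormedSpace.sphere_nonempty.2 zero_le_one
    exact ⟨fun _ => ⟨p, hp⟩, IsEmbedding.of_subsingleton _⟩
  · obtain ⟨K⟩ := exists_cone (X := Set.range fun x : X => f ⟦(x, 0)⟧)
      (fun p => f ⟦(h.symm p.1, p.2)⟧)
      (hf.continuous.comp (continuous_quotient_mk'.comp (by fun_prop))) fun p q => by
        rw [hf.injective.eq_iff, Quotient.eq]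
        refine or_congr_left ?_
        rw [Prod.ext_iff, Prod.ext_iff, h.symm.injective.eq_iff]
    obtain ⟨S⟩ := exists_str K
    exact embed_of_str S

end Pool.Agent.Results.MP_9e71a3_gt.QuotientCone
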